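import Pool.Agent.Y262.QE.Stm

/-!
# Project QE: a quasimode has a large component in a window with few eigenvalues
-/

set_option autoImplicit false

open Set Filter Topology MeasureTheory
open scoped Real

noncomputable section

namespace Pool.Agent.Y177.QE

open Pool.Agent.Y262.QE

/-- the part of a quasimode outside of the window is small; hence one of the few components inside
is large -/
theorem qm : StQM := by
  intro H _ _ a b e E hE x y ν q r B hr hq hqr hxy hyy hxx hcard
  classical
  have hfin : {j | |E j - ν| ≤ r}.Finite := by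
    apply Set.finite_of_encard_le_coe hcard
  set W : Finset ℕ := hfin.toFinset with hW
  have hmem : ∀ j, j ∈ W ↔ |E j - ν| ≤ r := fun j => by
    rw [hW, Set.Finite.mem_toFinset]; rfl
  have hWB : W.card ≤ B := by
    have h1 : ({j | |E j - ν| ≤ r} : Set ℕ).encard = (W.card : ℕ∞) := by
      rw [hW, hfin.encard_eq_coe_toFinset_card]
    rw [h1] at hcard
    exact_mod_cast hcard
  by_contra hcon
  push Not at hcon
  have hsx := hE.sum x
  have hsy := hE.sum y
  -- the sum over the window
  have hrest : b x x - ∑ j ∈ W, (b x (e j)) ^ 2 ≤ b y y / r ^ 2 := by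
    have h1 : HasSum (fun j : ℕ => if j ∈ W then 0 else (b x (e j)) ^ 2)
        (b x x - ∑ j ∈ W, (b x (e j)) ^ 2) := by
      have h2 : HasSum (fun j : ℕ => if j ∈ W then (b x (e j)) ^ 2 else 0)
          (∑ j ∈ W, (b x (e j)) ^ 2) := by
        have h3 : HasSum (fun j : ℕ => if j ∈ W then (b x (e j)) ^ 2 else 0)
            (∑ j ∈ W, if j ∈ W then (b x (e j)) ^ 2 else 0) :=
          hasSum_sum_of_ne_finset_zero (fun j hj => by simp [hj])
        rwa [Finset.sum_congr rfl (fun j hj => if_pos hj)] at h3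
      have h4 := hsx.sub h2
      have h5 : (fun j : ℕ => (b x (e j)) ^ 2 - if j ∈ W then (b x (e j)) ^ 2 else 0) =
          fun j : ℕ => if j ∈ W then 0 else (b x (e j)) ^ 2 := by
        funext j
        by_cases hj : j ∈ W <;> simp [hj]
      rwa [h5] at h4
    have h5 : HasSum (fun j : ℕ => (b y (e j)) ^ 2 / r ^ 2) (b y y / r ^ 2) := hsy.div_const _
    refine hasSum_le (fun j => ?_) h1 h5
    by_cases hj : j ∈ W
    · simp only [hj, if_true]; positivity
    · simp only [hj, if_false]
      rw [hmem, not_le] at hj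
      rw [le_div_iff₀ (by positivity), ← hxy j]
      have h6 : r ^ 2 ≤ (E j - ν) ^ 2 := by
        rw [← sq_abs (E j - ν)]
        exact pow_le_pow_left₀ hr.le hj.le 2
      nlinarith [sq_nonneg (b x (e j))]
  have h7 : b y y / r ^ 2 ≤ 1 / 4 * b x x := by
    rw [div_le_iff₀ (by positivity)]
    have h8 : q ^ 2 ≤ 1 / 4 * r ^ 2 := by nlinarith
    nlinarith
  have h9 : 3 / 4 * b x x ≤ ∑ j ∈ W, (b x (e j)) ^ 2 := by linarith
  have hne : W.Nonempty := by
    rw [Finset.nonempty_iff_ne_empty]
    rintro h
    rw [h, Finset.sum_empty] at h9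
    linarith
  have hB : 0 < (B : ℝ) := by
    have : 0 < W.card := Finset.card_pos.mpr hne
    exact_mod_cast lt_of_lt_of_le this hWB
  have h10 : (B : ℝ) * ∑ j ∈ W, (b x (e j)) ^ 2 < ∑ j ∈ W, (3 / 4 * b x x) := by
    rw [Finset.mul_sum]
    exact Finset.sum_lt_sum_of_nonempty hne (fun j hj => hcon j ((hmem j).1 hj))
  rw [Finset.sum_const, nsmul_eq_mul] at h10
  have h11 : (W.card : ℝ) * (3 / 4 * b x x) ≤ B * (3 / 4 * b x x) := by
    apply mul_le_mul_of_nonneg_right _ (by positivity)
    exact_mod_cast hWB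
  nlinarith

end Pool.Agent.Y177.QE
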